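import Mathlib

/-!
The number `492 = 2^2 * 3 * 41` is abundant (so not perfect), but it has exactly `492` distinct
positive subset sums of proper divisors.  It is the smallest positive integer `n` with `a n = n`
which is not an even perfect number.
-/

namespace Pool.Agent.Results.MP_9bce75_nt.Counterexample492

/-- `a n` is the number of distinct integers `∑ d ∈ S, d`, where `S` ranges over the non-empty
subsets of the set of proper divisors of `n` (these sums are automatically positive). -/
def a (n : ℕ) : ℕ :=
  ((n.properDivisors.powerset.filter fun S => S.Nonempty).image fun S => ∑ d ∈ S, d).card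

/-- Bit mask of all subset sums (the empty one included) of a list of naturals. -/
def mask : List ℕ → ℕ
  | [] => 1
  | d :: l => mask l ||| (mask l <<< d)

/-- Number of set bits among the lowest `k` bits. -/
def pop (m : ℕ) : ℕ → ℕ
  | 0 => 0
  | k + 1 => pop m k + (if m.testBit k then 1 else 0)

theorem pop_eq (m k : ℕ) : pop m k = ((Finset.range k).filter fun i => m.testBit i).card := by
  induction k with
  | zero => rfl
  | succ k ih =>
    rw [pop, ih, Finset.range_add_one, Finset.filter_insert]
    split_ifs with h
    · rw [Finset.card_insert_of_notMem (by simp)]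
    · simp

theorem testBit_mask (l : List ℕ) (hl : l.Nodup) (s : ℕ) :
    (mask l).testBit s = true ↔ ∃ S : Finset ℕ, S ⊆ l.toFinset ∧ ∑ d ∈ S, d = s := by
  induction l generalizing s with
  | nil =>
    simp only [mask, List.toFinset_nil, Finset.subset_empty]
    rw [Nat.testBit_one_eq_true_iff_self_eq_zero]
    constructor
    · intro h
      exact ⟨∅, rfl, by simpa using h.symm⟩
    · rintro ⟨S, rfl, h⟩
      simp at h
      simp [← h]
  | cons d l ih =>
    have hd : d ∉ l.toFinset := by simpa using (List.nodup_cons.mp hl).1
    have hl' := (List.nodup_cons.mp hl).2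
    rw [mask, Nat.testBit_or, Nat.testBit_shiftLeft, Bool.or_eq_true, Bool.and_eq_true,
      decide_eq_true_iff, ih hl', List.toFinset_cons]
    constructor
    · rintro (⟨S, hS, hs⟩ | ⟨hds, h⟩)
      · exact ⟨S, hS.trans (Finset.subset_insert _ _), hs⟩
      · obtain ⟨S, hS, hs⟩ := (ih hl' _).mp h
        refine ⟨insert d S, Finset.insert_subset_insert _ hS, ?_⟩
        rw [Finset.sum_insert (fun h => hd (hS h)), hs]
        omega
    · rintro ⟨S, hS, hs⟩
      by_cases hdS : d ∈ S
      · right
        have h1 : d + ∑ x ∈ S.erase d, x = s := by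
          rw [Finset.add_sum_erase S (fun x => x) hdS]; exact hs
        refine ⟨by omega, (ih hl' _).mpr ⟨S.erase d, ?_, by omega⟩⟩
        intro x hx
        have h2 := hS (Finset.mem_of_mem_erase hx)
        rw [Finset.mem_insert] at h2
        rcases h2 with h2 | h2
        · exact absurd h2 (Finset.ne_of_mem_erase hx)
        · exact h2
      · left
        refine ⟨S, ?_, hs⟩
        intro x hx
        have h2 := hS hx
        rw [Finset.mem_insert] at h2
        rcases h2 with h2 | h2
        · exact absurd (h2 ▸ hx) hdS
        · exact h2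

/-- The list of proper divisors. -/
def dl (n : ℕ) : List ℕ := (List.range n).filter fun d => decide (0 < d) && decide (n % d = 0)

theorem dl_nodup (n : ℕ) : (dl n).Nodup := List.nodup_range.filter _

theorem dl_toFinset (n : ℕ) : (dl n).toFinset = n.properDivisors := by
  ext d
  simp only [dl, List.mem_toFinset, List.mem_filter, List.mem_range, Bool.and_eq_true,
    decide_eq_true_eq, Nat.mem_properDivisors]
  constructor
  · rintro ⟨h1, h2, h3⟩
    exact ⟨Nat.dvd_of_mod_eq_zero h3, h1⟩
  · rintro ⟨h1, h2⟩
    exact ⟨h2, Nat.pos_of_dvd_of_pos h1 (by omega), Nat.mod_eq_zero_of_dvd h1⟩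

theorem a_eq (n : ℕ) : a n + 1 = pop (mask (dl n)) ((dl n).sum + 1) := by
  have key : ((n.properDivisors.powerset.filter fun S => S.Nonempty).image
      fun S => ∑ d ∈ S, d) =
      ((Finset.range ((dl n).sum + 1)).filter fun i => (mask (dl n)).testBit i).erase 0 := by
    ext s
    rw [Finset.mem_erase, Finset.mem_filter, testBit_mask _ (dl_nodup n), dl_toFinset,
      Finset.mem_range]
    simp only [Finset.mem_image, Finset.mem_filter, Finset.mem_powerset]
    constructor
    · rintro ⟨S, ⟨hS, hne⟩, rfl⟩
      refine ⟨?_, ?_, S, hS, rfl⟩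
      · obtain ⟨x, hx⟩ := hne
        have h1 : x ≤ ∑ d ∈ S, d := Finset.single_le_sum (f := fun d => d)
          (fun _ _ => Nat.zero_le _) hx
        have h2 : 0 < x := Nat.pos_of_mem_properDivisors (hS hx)
        omega
      · have h1 : ∑ d ∈ S, d ≤ ∑ d ∈ n.properDivisors, d :=
          Finset.sum_le_sum_of_subset hS
        have h2 : ∑ d ∈ n.properDivisors, d = (dl n).sum := by
          rw [← dl_toFinset, List.sum_toFinset _ (dl_nodup n)]
          simp
        omega
    · rintro ⟨hs, -, S, hS, rfl⟩
      refine ⟨S, ⟨hS, ?_⟩, rfl⟩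
      rw [Finset.nonempty_iff_ne_empty]
      rintro rfl
      simp at hs
  rw [a, key, pop_eq, Finset.card_erase_of_mem]
  · have : 0 < ((Finset.range ((dl n).sum + 1)).filter
        fun i => (mask (dl n)).testBit i).card := by
      apply Finset.card_pos.mpr
      refine ⟨0, ?_⟩
      rw [Finset.mem_filter, testBit_mask _ (dl_nodup n)]
      exact ⟨by simp, ∅, by simp, by simp⟩
    omega
  · rw [Finset.mem_filter, testBit_mask _ (dl_nodup n)]
    exact ⟨by simp, ∅, by simp, by simp⟩

theorem a_492 : a 492 = 492 := by
  have h := a_eq 492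
  have h2 : pop (mask (dl 492)) ((dl 492).sum + 1) = 493 := by decide +kernel
  omega

theorem small (n : ℕ) (hn : n < 492) (h : a n = n) : n = 0 ∨ n = 6 ∨ n = 28 := by
  have h0 := a_eq n
  rw [h] at h0
  have key : ∀ n < 492, n + 1 = pop (mask (dl n)) ((dl n).sum + 1) → n = 0 ∨ n = 6 ∨ n = 28 := by
    decide +kernel
  exact key n hn h0

/-- `492` is the least positive integer `n` with `a n = n` which is not an even perfect number. -/
theorem result : IsLeast {n : ℕ | 0 < n ∧ a n = n ∧ ¬ (n.Perfect ∧ Even n)} 492 := by
  constructor
  · refine ⟨by norm_num, a_492, ?_⟩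
    rintro ⟨h, -⟩
    rw [Nat.perfect_iff_sum_properDivisors (by norm_num)] at h
    revert h
    decide +kernel
  · rintro n ⟨hn, ha, hp⟩
    by_contra hlt
    rcases small n (by omega) ha with rfl | rfl | rfl
    · omega
    · apply hp
      refine ⟨?_, by decide⟩
      rw [Nat.perfect_iff_sum_properDivisors (by norm_num)]
      decide +kernel
    · apply hp
      refine ⟨?_, by decide⟩
      rw [Nat.perfect_iff_sum_properDivisors (by norm_num)]
      decide +kernel

end Pool.Agent.Results.MP_9bce75_nt.Counterexample492
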